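import Pool.Agent.helper16.PU.Spec2

/-! # Row `pu:RSZ` (MP_2e0e07_nt): a normal subgroup on which the residual representation is not scalar -/

set_option autoImplicit false

namespace Pool.Agent.PU

open Matrix Polynomial Pool.Agent.GO Pool.Agent.AR Pool.Agent.RG Pool.Agent.HZ Pool.Agent.DS
  Pool.Agent.AX Pool.Agent.UM NumberField

theorem RSZ (hDNO : DNO_stmt) (hDUW : DUW_stmt) (hDPG : DPG_stmt) (hPMK : PMK_stmt) (hDRS : DRS_stmt) : RSZ_stmt := by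
  intro p _ hp5 Γ _ _ _ _ κ _ _ _ S hSo hbig Z hZn hZS
  obtain ⟨hirr, hord⟩ := hbig
  obtain ⟨T, hT⟩ : ∃ T : Γ →* GL (Fin 2) κ, ∀ g, (T g : Matrix (Fin 2) (Fin 2) κ) = S g :=
    ⟨S.toHomUnits, fun g => MonoidHom.coe_toHomUnits S g⟩
  obtain ⟨φ, hφ⟩ : ∃ φ : Γ →* Equiv.Perm (OnePoint κ), φ = (pm κ).comp T := ⟨_, rfl⟩
  have hφ' : ∀ g, φ g = pm κ (T g) := fun g => by rw [hφ]; rfl
  have hker : φ.ker = adKer S := by
    ext g
    rw [MonoidHom.mem_ker, hφ', (hPMK κ).1, mem_adKer, hT]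
  have hTker : ∀ g, T g = 1 ↔ g ∈ S.ker := by
    intro g
    rw [MonoidHom.mem_ker, ← hT, Units.val_eq_one]
  have hfinS : Finite (Γ ⧸ S.ker) := Subgroup.quotient_finite_of_isOpen _ hSo
  have hTk : T.ker = S.ker := by
    ext g
    rw [MonoidHom.mem_ker, hTker]
  have hTfin : (Set.range T).Finite := by
    rw [← hTk] at hfinS
    have h1 : Finite T.range := Finite.of_equiv _ (QuotientGroup.quotientKerEquivRange T).toEquiv
    exact Set.toFinite (T.range : Set (GL (Fin 2) κ))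
  obtain ⟨hfin, hdvd, hNF⟩ := hDRS p κ Γ T hTfin (fun v hv => by
    obtain ⟨g, hg⟩ := RES_line S hirr v hv
    exact ⟨g, fun c => by rw [hT]; exact hg c⟩) (by
    obtain ⟨g, hg⟩ := hord
    exact ⟨g, by rw [← hg, ← hT, orderOf_units]⟩)
  rw [← hφ] at hfin hdvd hNF
  have hpre : ∀ g, ∃ h : GL (Fin 2) κ, pm κ h = φ g := fun g => ⟨T g, (hφ' g).symm⟩
  have hpre' : ∀ h ∈ φ.range, ∃ g : GL (Fin 2) κ, pm κ g = h := by
    rintro _ ⟨g, rfl⟩
    exact hpre g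
  have hF := hDPG p κ φ.range hfin hpre'
  have hNne : Z.map φ ≠ ⊥ := by
    intro h
    apply hZS
    rw [← hker]
    exact (Subgroup.map_eq_bot_iff _).1 h
  have hNle : Z.map φ ≤ φ.range := by
    rintro _ ⟨g, -, rfl⟩
    exact ⟨g, rfl⟩
  obtain ⟨hd1, hd2, hd3⟩ := hDNO p (OnePoint κ) φ.range (Z.map φ) hp5 hF hdvd hNF hNle hNne (by
    rintro _ ⟨g, rfl⟩ _ ⟨z, hz, rfl⟩
    exact ⟨g * z * g⁻¹, hZn.conj_mem z hz g, by rw [map_mul, map_mul, map_inv]⟩)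
  have hcard : (Z.map φ).relIndex φ.range * Nat.card (Z.map φ) = Nat.card φ.range := by
    have h1 := Subgroup.relIndex_mul_relIndex (⊥ : Subgroup (Equiv.Perm (OnePoint κ))) (Z.map φ) φ.range bot_le hNle
    rw [Subgroup.relIndex_bot_left, Subgroup.relIndex_bot_left] at h1
    rw [← h1, mul_comm]
  have hidx : (Z ⊔ adKer S).index = (Z.map φ).relIndex φ.range := by
    rw [← hker, ← Subgroup.comap_map_eq, Subgroup.index_comap]
  have hpos : 0 < Nat.card φ.range := by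
    have : Finite φ.range := hfin
    exact Nat.card_pos
  have hposN : 0 < Nat.card (Z.map φ) := by
    by_contra h0
    rw [Nat.eq_zero_of_not_pos h0, mul_zero] at hcard
    omega
  refine ⟨?_, ?_, ?_⟩
  · rw [hidx]
    intro h0
    rw [h0, zero_mul] at hcard
    omega
  · rw [hidx]
    rw [← hcard] at hd3
    exact Nat.le_of_mul_le_mul_right hd3 hposN
  · have hfN : ((Z.map φ : Subgroup (Equiv.Perm (OnePoint κ))) : Set (Equiv.Perm (OnePoint κ))).Finite :=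
      hfin.subset hNle
    obtain ⟨γ, ⟨z1, hz1, e1⟩, ⟨z2, hz2, e2⟩⟩ := hDUW p κ (Z.map φ) hp5 hfN
      (fun h hh => hpre' h (hNle hh)) hd1 hd2
    refine ⟨(γ : Matrix (Fin 2) (Fin 2) κ), ((γ⁻¹ : GL (Fin 2) κ) : Matrix (Fin 2) (Fin 2) κ),
      Units.mul_inv γ, Units.inv_mul γ, ⟨z1, hz1, ?_⟩, ⟨z2, hz2, ?_⟩⟩
    · rw [hφ', (hPMK κ).2.1] at e1
      obtain ⟨c, hc⟩ := e1
      exact ⟨c, by rw [← hT, hc, Units.val_mul, Units.val_mul]; rfl⟩
    · rw [hφ', (hPMK κ).2.1] at e2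
      obtain ⟨c, hc⟩ := e2
      exact ⟨c, by rw [← hT, hc, Units.val_mul, Units.val_mul]; rfl⟩

end Pool.Agent.PU
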